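import Pool.Agent.H240.GB.Def

/-!
# `GB-F`: from windows to one sequence
-/

set_option autoImplicit false

open Set Filter Topology MeasureTheory

noncomputable section

namespace Pool.Agent.H396.GB

/-- continuity of the functional in the test function -/
theorem int_lip {M : Type} [MetricSpace M] [CompactSpace M] [MeasurableSpace M] [BorelSpace M]
    {ν : Measure M} [IsFiniteMeasure ν] {v : M → ℝ} (hv : Integrable (fun x => (v x) ^ 2) ν)
    (h1 : ∫ x, (v x) ^ 2 ∂ν = 1) (h h' : C(M, ℝ)) :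
    |(∫ x, h x * (v x) ^ 2 ∂ν) - ∫ x, h' x * (v x) ^ 2 ∂ν| ≤ ‖h - h'‖ := by
  have hi : ∀ k : C(M, ℝ), Integrable (fun x => k x * (v x) ^ 2) ν := by
    intro k
    exact hv.bdd_mul k.continuous.aestronglyMeasurable
      (Filter.Eventually.of_forall fun x => k.norm_coe_le_norm x)
  rw [← integral_sub (hi h) (hi h')]
  have h2 : ∀ x, ‖h x * (v x) ^ 2 - h' x * (v x) ^ 2‖ ≤ ‖h - h'‖ * (v x) ^ 2 := by
    intro x
    have e : h x * (v x) ^ 2 - h' x * (v x) ^ 2 = (h - h') x * (v x) ^ 2 := by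
      rw [ContinuousMap.sub_apply]
      ring
    rw [e, norm_mul, Real.norm_of_nonneg (sq_nonneg (v x))]
    exact mul_le_mul_of_nonneg_right ((h - h').norm_coe_le_norm x) (sq_nonneg _)
  have h3 := norm_integral_le_of_norm_le (hv.const_mul ‖h - h'‖)
    (Filter.Eventually.of_forall h2)
  rw [integral_const_mul, h1, mul_one, Real.norm_eq_abs] at h3
  exact h3

theorem stSeqJ : Pool.Agent.H240.GB.StSeqJ := by
  classical
  intro M _ _ _ _ a ha
  refine ⟨fun n => (Finset.range (n + 1)).image (TopologicalSpace.denseSeq C(M, ℝ)), ?_⟩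
  intro ν _ u lam htt hint hone hst
  choose Λ hΛ1 hΛ2 using hst
  set A : ℕ → Set ℕ := fun n => {j | (∀ h ∈ (Finset.range (n + 1)).image
    (TopologicalSpace.denseSeq C(M, ℝ)), |(∫ x, h x * (u j x) ^ 2 ∂ν) - a h| ≤
      1 / ((n : ℝ) + 1)) ∧ lam j ≤ Λ n} with hA
  have hfinL : ∀ a : ℝ, {j | lam j ≤ a}.Finite := by
    intro a
    obtain ⟨j0, hj0⟩ := (htt.eventually (eventually_gt_atTop a)).exists_forall_of_atTop
    refine (Set.finite_Iio j0).subset fun j hj => ?_
    by_contra hcon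
    have h1 := hj0 j (not_lt.1 hcon)
    have h2 : lam j ≤ a := hj
    linarith
  refine ⟨⋃ n, A n, fun C => ?_, fun h => ?_⟩
  · rw [frequently_atTop]
    intro Λ0
    obtain ⟨n, hn⟩ := exists_nat_ge (max C Λ0)
    refine ⟨Λ n, ((le_max_right _ _).trans hn).trans (hΛ1 n), ?_⟩
    have h1 : C * √(Λ n) ≤ n * √(Λ n) :=
      mul_le_mul_of_nonneg_right ((le_max_left _ _).trans hn) (Real.sqrt_nonneg _)
    have h2 : (A n) ⊆ {j | j ∈ (⋃ n, A n) ∧ lam j ≤ Λ n} := fun j hj => ⟨mem_iUnion.2 ⟨n, hj⟩, hj.2⟩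
    have h3 : ((A n).ncard : ℝ) ≤ ({j | j ∈ (⋃ n, A n) ∧ lam j ≤ Λ n}.ncard : ℝ) :=
      Nat.cast_le.2 (ncard_le_ncard h2 ((hfinL (Λ n)).subset fun j hj => hj.2))
    exact (h1.trans_lt (hΛ2 n)).trans_le h3
  · rw [Metric.tendsto_nhds]
    intro ε hε
    obtain ⟨N0, hN0⟩ := (TopologicalSpace.denseRange_denseSeq C(M, ℝ)).exists_dist_lt h
      (show (0 : ℝ) < ε / 4 by positivity)
    rw [dist_eq_norm] at hN0
    obtain ⟨N2, hN2⟩ := exists_nat_gt (4 / ε)
    set N := max N0 N2 with hN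
    have hfin : (⋃ n ∈ Finset.range N, {j | lam j ≤ Λ n}).Finite :=
      (Finset.range N).finite_toSet.biUnion fun n _ => hfinL (Λ n)
    have hev : ∀ᶠ j in atTop, j ∉ ⋃ n ∈ Finset.range N, {j | lam j ≤ Λ n} := by
      have h1 := hfin.eventually_cofinite_notMem
      rwa [Nat.cofinite_eq_atTop] at h1
    rw [eventually_inf_principal]
    filter_upwards [hev] with j hj hjA
    obtain ⟨n, hn⟩ := mem_iUnion.1 hjA
    have hnN : N ≤ n := by
      by_contra hcon
      push Not at hcon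
      exact hj (mem_biUnion (Finset.mem_coe.2 (Finset.mem_range.2 hcon)) hn.2)
    have h1 := hn.1 (TopologicalSpace.denseSeq C(M, ℝ) N0) (Finset.mem_image_of_mem _
      (Finset.mem_range.2 (Nat.lt_succ_of_le ((le_max_left _ _).trans hnN))))
    have h2 := int_lip (hint j) (hone j) h (TopologicalSpace.denseSeq C(M, ℝ) N0)
    have h3 := ha h (TopologicalSpace.denseSeq C(M, ℝ) N0)
    have h5 : 1 / ((n : ℝ) + 1) < ε / 4 := by
      have h6 : (N2 : ℝ) ≤ n := Nat.cast_le.2 ((le_max_right _ _).trans hnN)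
      rw [div_lt_iff₀ (by positivity)]
      rw [div_lt_iff₀ hε] at hN2
      nlinarith
    rw [Real.dist_eq]
    rw [abs_le] at h1 h2 h3
    rw [abs_lt]
    constructor
    · linarith [h1.1, h2.1, h3.2]
    · linarith [h1.2, h2.2, h3.1]

end Pool.Agent.H396.GB
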